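import Mathlib
import Pool.Agent.W186.AI.Spec

set_option autoImplicit false

namespace Pool.Agent.W598.AI

open Complex Filter Topology Metric Set
open scoped Real
open Pool.Agent.W186.AI

noncomputable def om {N : ℕ} (p : Fin N → Nat.Primes) (v : Fin N → ℂ) (q : Nat.Primes) : ℂ :=
  ∑ j, if p j = q then v j else 0

theorem om_apply {N : ℕ} {p : Fin N → Nat.Primes} (hp : Function.Injective p) (v : Fin N → ℂ)
    (j : Fin N) : om p v (p j) = v j := by
  unfold om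
  simp [hp.eq_iff]

theorem om_zero {N : ℕ} {p : Fin N → Nat.Primes} (v : Fin N → ℂ) {q : Nat.Primes}
    (hq : ∀ j, p j ≠ q) : om p v q = 0 := by
  unfold om
  simp [hq]

theorem om_le {N : ℕ} {p : Fin N → Nat.Primes} (hp : Function.Injective p) {v : Fin N → ℂ}
    (hv : ∀ j, ‖v j‖ ≤ 1) (q : Nat.Primes) : ‖om p v q‖ ≤ 1 := by
  by_cases h : ∃ j, p j = q
  · obtain ⟨j, rfl⟩ := h
    rw [om_apply hp]; exact hv j
  · push Not at h
    rw [om_zero v h]; simp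

/-- the finite sum. -/
noncomputable def Sf {N : ℕ} (p : Fin N → Nat.Primes) (σ : ℝ) (v : Fin N → ℂ) (z : ℂ) : ℂ :=
  (∑ j, (log (1 - v j * cexp (-((σ : ℂ) + I * z) * Real.log (p j : ℕ))) -
    log (1 - v j * cexp (-((σ : ℂ) - I * z) * Real.log (p j : ℕ))))) / (2 * I)

theorem S_eq {N : ℕ} {p : Fin N → Nat.Primes} (hp : Function.Injective p) (σ : ℝ)
    (v : Fin N → ℂ) (z : ℂ) : S σ (om p v) z = Sf p σ v z := by
  unfold S Sf
  congr 1
  rw [tsum_eq_sum (s := Finset.univ.image p)]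
  · rw [Finset.sum_image (fun a _ b _ h => hp h)]
    refine Finset.sum_congr rfl fun j _ => ?_
    have hne : (((p j : Nat.Primes) : ℕ) : ℂ) ≠ 0 := by
      exact_mod_cast (p j).2.ne_zero
    rw [om_apply hp, Complex.cpow_def_of_ne_zero hne, Complex.cpow_def_of_ne_zero hne,
      ← Complex.natCast_log]
    congr 3
    · rw [mul_comm (((Real.log _ : ℝ) : ℂ))]
    · rw [mul_comm (((Real.log _ : ℝ) : ℂ))]
  · intro q hq
    have : ∀ j, p j ≠ q := by
      intro j hj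
      exact hq (Finset.mem_image.2 ⟨j, Finset.mem_univ _, hj⟩)
    rw [om_zero v this]
    simp

/-- one logarithm -/
theorem one_log {m N : ℕ} (i : Fin m) (j : Fin N) (x : Fin m → ℂ) (c d : ℂ) :
    HasStrictFDerivAt (fun q : (Fin m → ℂ) × (Fin N → ℂ) => log (1 - q.2 j * cexp (c + d * q.1 i)))
      (-(cexp (c + d * x i)) • ((ContinuousLinearMap.proj j : (Fin N → ℂ) →L[ℂ] ℂ).comp
        (ContinuousLinearMap.snd ℂ (Fin m → ℂ) (Fin N → ℂ)))) (x, 0) := by
  have h1 : HasStrictFDerivAt (fun q : (Fin m → ℂ) × (Fin N → ℂ) => q.2 j)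
      ((ContinuousLinearMap.proj j : (Fin N → ℂ) →L[ℂ] ℂ).comp
        (ContinuousLinearMap.snd ℂ (Fin m → ℂ) (Fin N → ℂ))) (x, 0) :=
    ((ContinuousLinearMap.proj j : (Fin N → ℂ) →L[ℂ] ℂ).comp
        (ContinuousLinearMap.snd ℂ (Fin m → ℂ) (Fin N → ℂ))).hasStrictFDerivAt
  have h2 : HasStrictFDerivAt (fun q : (Fin m → ℂ) × (Fin N → ℂ) => q.1 i)
      ((ContinuousLinearMap.proj i : (Fin m → ℂ) →L[ℂ] ℂ).comp
        (ContinuousLinearMap.fst ℂ (Fin m → ℂ) (Fin N → ℂ))) (x, 0) :=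
    ((ContinuousLinearMap.proj i : (Fin m → ℂ) →L[ℂ] ℂ).comp
        (ContinuousLinearMap.fst ℂ (Fin m → ℂ) (Fin N → ℂ))).hasStrictFDerivAt
  have h3 := ((h2.const_mul d).const_add c).cexp
  have h4 := (h1.mul h3).const_sub 1
  have h5 := h4.clog (by simp)
  refine h5.congr_fderiv ?_
  refine ContinuousLinearMap.ext fun q => ?_
  simp

/-- the strict derivative of the finite sum at `v = 0`. -/
theorem Sf_deriv {m N : ℕ} (p : Fin N → Nat.Primes) (σ : ℝ) (i : Fin m) (x : Fin m → ℂ) :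
    HasStrictFDerivAt (fun q : (Fin m → ℂ) × (Fin N → ℂ) => Sf p σ q.2 (q.1 i))
      (∑ j, ((cexp (-((σ : ℂ) - I * x i) * Real.log (p j : ℕ)) -
          cexp (-((σ : ℂ) + I * x i) * Real.log (p j : ℕ))) / (2 * I)) •
        ((ContinuousLinearMap.proj j : (Fin N → ℂ) →L[ℂ] ℂ).comp
        (ContinuousLinearMap.snd ℂ (Fin m → ℂ) (Fin N → ℂ)))) (x, 0) := by
  have h : ∀ j : Fin N, HasStrictFDerivAt (fun q : (Fin m → ℂ) × (Fin N → ℂ) =>
      log (1 - q.2 j * cexp (-((σ : ℂ) + I * q.1 i) * Real.log (p j : ℕ))) -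
      log (1 - q.2 j * cexp (-((σ : ℂ) - I * q.1 i) * Real.log (p j : ℕ))))
      ((cexp (-((σ : ℂ) - I * x i) * Real.log (p j : ℕ)) -
          cexp (-((σ : ℂ) + I * x i) * Real.log (p j : ℕ))) •
        ((ContinuousLinearMap.proj j : (Fin N → ℂ) →L[ℂ] ℂ).comp
        (ContinuousLinearMap.snd ℂ (Fin m → ℂ) (Fin N → ℂ)))) (x, 0) := by
    intro j
    have e1 : ∀ z : ℂ, -((σ : ℂ) + I * z) * Real.log (p j : ℕ) =
        -(σ : ℂ) * Real.log (p j : ℕ) + (-I * Real.log (p j : ℕ)) * z := by intro z; ring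
    have e2 : ∀ z : ℂ, -((σ : ℂ) - I * z) * Real.log (p j : ℕ) =
        -(σ : ℂ) * Real.log (p j : ℕ) + (I * Real.log (p j : ℕ)) * z := by intro z; ring
    simp only [e1, e2]
    have a1 := one_log i j x (-(σ : ℂ) * Real.log (p j : ℕ)) (-I * Real.log (p j : ℕ))
    have a2 := one_log i j x (-(σ : ℂ) * Real.log (p j : ℕ)) (I * Real.log (p j : ℕ))
    refine (a1.sub a2).congr_fderiv ?_
    refine ContinuousLinearMap.ext fun q => ?_
    simp
    ring
  have h2 := HasStrictFDerivAt.fun_sum (u := Finset.univ) (fun j _ => h j)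
  have h3 := h2.mul_const ((2 * I)⁻¹)
  have e : (fun q : (Fin m → ℂ) × (Fin N → ℂ) => Sf p σ q.2 (q.1 i)) =
      fun q : (Fin m → ℂ) × (Fin N → ℂ) => (∑ j, (log (1 - q.2 j * cexp (-((σ : ℂ) + I * q.1 i) *
        Real.log (p j : ℕ))) - log (1 - q.2 j * cexp (-((σ : ℂ) - I * q.1 i) *
        Real.log (p j : ℕ))))) * (2 * I)⁻¹ := by
    funext q
    unfold Sf
    rw [div_eq_mul_inv]
  rw [e]
  refine h3.congr_fderiv ?_
  refine ContinuousLinearMap.ext fun q => ?_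
  simp only [_root_.smul_apply, _root_.sum_apply, smul_eq_mul,
    ContinuousLinearMap.comp_apply, ContinuousLinearMap.proj_apply, ContinuousLinearMap.coe_snd',
    Finset.mul_sum]
  refine Finset.sum_congr rfl fun j _ => ?_
  rw [div_eq_mul_inv]
  ring

theorem surj_of {m N : ℕ} (M : Fin m → Fin N → ℂ)
    (h : ∀ c : Fin m → ℂ, (∀ j, ∑ i, c i * M i j = 0) → c = 0) (e : Fin m → ℂ) :
    ∃ u : Fin N → ℂ, ∀ i, ∑ j, M i j * u j = e i := by
  let f : (Fin N → ℂ) →ₗ[ℂ] (Fin m → ℂ) := Matrix.mulVecLin (Matrix.of M)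
  have hf : LinearMap.range f = ⊤ := by
    by_contra hne
    obtain ⟨φ, φ0, hle⟩ := Submodule.exists_le_ker_of_lt_top _ (lt_top_iff_ne_top.2 hne)
    apply φ0
    have hc := h (fun i => φ (fun k => if i = k then 1 else 0)) (by
      intro j
      have h1 : φ (f (Pi.single j 1)) = 0 := hle ⟨_, rfl⟩
      rw [LinearMap.pi_apply_eq_sum_univ φ] at h1
      refine (Finset.sum_congr rfl fun i _ => ?_).trans h1
      have : f (Pi.single j 1) i = M i j := by
        simp [f, Matrix.mulVecLin_apply]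
      rw [this, smul_eq_mul, mul_comm])
    refine LinearMap.ext fun z => ?_
    rw [LinearMap.pi_apply_eq_sum_univ φ]
    simp only [LinearMap.zero_apply]
    refine Finset.sum_eq_zero fun i _ => ?_
    have := congrFun hc i
    simp only [Pi.zero_apply] at this
    rw [this, smul_zero]
  have : e ∈ LinearMap.range f := by rw [hf]; trivial
  obtain ⟨u, hu⟩ := this
  refine ⟨u, fun i => ?_⟩
  rw [← hu]
  simp [f, Matrix.mulVecLin_apply, Matrix.mulVec, dotProduct]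

theorem coef (σ : ℝ) (x L : ℂ) :
    (cexp (-((σ : ℂ) - I * x) * L) - cexp (-((σ : ℂ) + I * x) * L)) / (2 * I) =
      cexp (-(σ : ℂ) * L) * Complex.sin (x * L) := by
  have e1 : -((σ : ℂ) - I * x) * L = -(σ : ℂ) * L + (x * L) * I := by ring
  have e2 : -((σ : ℂ) + I * x) * L = -(σ : ℂ) * L + -(x * L) * I := by ring
  rw [e1, e2, Complex.exp_add, Complex.exp_add, Complex.sin]
  have hI : I ≠ 0 := Complex.I_ne_zero
  field_simp
  ring_nf
  simp [Complex.I_sq]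
  ring

theorem eq_zero_of_nhds {m : ℕ} (x : Fin m → ℂ) (P : MvPolynomial (Fin m) ℂ)
    (h : ∀ᶠ z in 𝓝 x, MvPolynomial.eval z P = 0) : P = 0 := by
  obtain ⟨ε, hε, hb⟩ := Metric.eventually_nhds_iff_ball.1 h
  refine MvPolynomial.funext_set (fun i => Metric.ball (x i) ε) (fun i => ?_) (fun z hz => ?_)
  · exact infinite_of_mem_nhds (x i) (Metric.ball_mem_nhds _ hε)
  · rw [← ball_pi x hε] at hz
    rw [hb z hz]; simp

theorem main (ht : S_TTH) (hT : S_TRG) : S_OPN := by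
  intro m n σ r P hn hσ hr hir hP
  obtain ⟨w, hw0, hwr, N, p, hp, hM⟩ := hT m n hn r hr
  have hyy : ∀ k : ℕ, 0 ≤ yy k := by
    intro k; unfold yy; positivity
  let x : Fin m → ℂ := fun i => (w : ℂ) * (yy (n i) : ℝ)
  let Ψ : (Fin m → ℂ) × (Fin N → ℂ) → (Fin m → ℂ) × (Fin m → ℂ) :=
    fun q => (q.1, fun i => (w : ℂ) * (((yy (n i) : ℝ) : ℂ) + Sf p σ q.2 (q.1 i)) - q.1 i)
  let D : Fin m → ((Fin m → ℂ) × (Fin N → ℂ)) →L[ℂ] ℂ := fun i =>
    (w : ℂ) • (∑ j, ((cexp (-((σ : ℂ) - I * x i) * Real.log (p j : ℕ)) -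
          cexp (-((σ : ℂ) + I * x i) * Real.log (p j : ℕ))) / (2 * I)) •
        ((ContinuousLinearMap.proj j : (Fin N → ℂ) →L[ℂ] ℂ).comp
        (ContinuousLinearMap.snd ℂ (Fin m → ℂ) (Fin N → ℂ)))) -
      ((ContinuousLinearMap.proj i : (Fin m → ℂ) →L[ℂ] ℂ).comp
        (ContinuousLinearMap.fst ℂ (Fin m → ℂ) (Fin N → ℂ)))
  let Ψ' : ((Fin m → ℂ) × (Fin N → ℂ)) →L[ℂ] ((Fin m → ℂ) × (Fin m → ℂ)) :=
    (ContinuousLinearMap.fst ℂ (Fin m → ℂ) (Fin N → ℂ)).prod (ContinuousLinearMap.pi D)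
  have hΨ : HasStrictFDerivAt Ψ Ψ' (x, 0) := by
    refine HasStrictFDerivAt.prodMk hasStrictFDerivAt_fst ?_
    refine hasStrictFDerivAt_pi.2 fun i => ?_
    refine HasStrictFDerivAt.sub ?_ ?_
    · exact ((Sf_deriv p σ i x).const_add _).const_mul _
    · exact ((ContinuousLinearMap.proj i : (Fin m → ℂ) →L[ℂ] ℂ).comp
        (ContinuousLinearMap.fst ℂ (Fin m → ℂ) (Fin N → ℂ))).hasStrictFDerivAt
  have hwc : (w : ℂ) ≠ 0 := by exact_mod_cast hw0.ne'
  have hDapp : ∀ (q : (Fin m → ℂ) × (Fin N → ℂ)) (i : Fin m), D i q =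
      (w : ℂ) * (∑ j, cexp (-(σ : ℂ) * Real.log (p j : ℕ)) *
        ((Real.sin (w * yy (n i) * Real.log (p j)) : ℝ) : ℂ) * q.2 j) - q.1 i := by
    intro q i
    have hc : ∀ j, (cexp (-((σ : ℂ) - I * x i) * Real.log (p j : ℕ)) -
          cexp (-((σ : ℂ) + I * x i) * Real.log (p j : ℕ))) / (2 * I) =
          cexp (-(σ : ℂ) * Real.log (p j : ℕ)) *
        ((Real.sin (w * yy (n i) * Real.log (p j)) : ℝ) : ℂ) := by
      intro j
      rw [coef, Complex.ofReal_sin]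
      simp only [x]
      push_cast
      rfl
    simp only [D, hc]
    simp [Finset.mul_sum]
  have hsurj : LinearMap.range (Ψ' : ((Fin m → ℂ) × (Fin N → ℂ)) →ₗ[ℂ] ((Fin m → ℂ) × (Fin m → ℂ))) = ⊤ := by
    rw [LinearMap.range_eq_top]
    rintro ⟨a, e⟩
    obtain ⟨u, hu⟩ := surj_of (fun i j => ((Real.sin (w * yy (n i) * Real.log (p j)) : ℝ) : ℂ)) hM
      (fun i => e i + a i)
    refine ⟨(a, fun j => (w : ℂ)⁻¹ * cexp ((σ : ℂ) * Real.log (p j : ℕ)) * u j), ?_⟩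
    refine Prod.ext rfl ?_
    funext i
    change D i _ = e i
    rw [hDapp]
    have h1 : ∀ j, cexp (-(σ : ℂ) * Real.log (p j : ℕ)) *
        ((Real.sin (w * yy (n i) * Real.log (p j)) : ℝ) : ℂ) *
        ((w : ℂ)⁻¹ * cexp ((σ : ℂ) * Real.log (p j : ℕ)) * u j) =
        (w : ℂ)⁻¹ * (((Real.sin (w * yy (n i) * Real.log (p j)) : ℝ) : ℂ) * u j) := by
      intro j
      have h2 : cexp (-(σ : ℂ) * Real.log (p j : ℕ)) * cexp ((σ : ℂ) * Real.log (p j : ℕ)) = 1 := by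
        rw [← Complex.exp_add]; simp
      linear_combination ((Real.sin (w * yy (n i) * Real.log (p j)) : ℝ) : ℂ) * (w : ℂ)⁻¹ * u j * h2
    simp only [h1]
    rw [← Finset.mul_sum, hu i, mul_inv_cancel_left₀ hwc]
    simp
  have hmap := hΨ.map_nhds_eq_of_surj hsurj
  have hΨ0 : Ψ (x, 0) = (x, 0) := by
    refine Prod.ext rfl ?_
    funext i
    simp [Ψ, Sf, x]
  have hx1 : ∀ i, ‖x i‖ < 1 := by
    intro i
    have h1 := hir i
    have h2 := hyy (n i)
    have : ‖x i‖ = w * yy (n i) := by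
      simp only [x]
      rw [← Complex.ofReal_mul, Complex.norm_real, Real.norm_of_nonneg (by positivity)]
    rw [this]
    nlinarith
  have hU : ∀ᶠ q : (Fin m → ℂ) × (Fin N → ℂ) in 𝓝 (x, 0), (∀ j, ‖q.2 j‖ < 1) ∧ ∀ i, ‖q.1 i‖ < 1 := by
    refine Filter.Eventually.and ?_ ?_
    · refine Filter.eventually_all.2 fun j => ?_
      have hc : Continuous fun q : (Fin m → ℂ) × (Fin N → ℂ) => ‖q.2 j‖ := by fun_prop
      exact hc.continuousAt.eventually_lt continuousAt_const (by simp)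
    · refine Filter.eventually_all.2 fun i => ?_
      have hc : Continuous fun q : (Fin m → ℂ) × (Fin N → ℂ) => ‖q.1 i‖ := by fun_prop
      exact hc.continuousAt.eventually_lt continuousAt_const (by simpa using hx1 i)
  have himg : Ψ '' {q | (∀ j, ‖q.2 j‖ < 1) ∧ ∀ i, ‖q.1 i‖ < 1} ∈ 𝓝 ((x, 0) : (Fin m → ℂ) × (Fin m → ℂ)) := by
    rw [← hΨ0, ← hmap]
    exact Filter.image_mem_map hU
  have hcont : Tendsto (fun z : Fin m → ℂ => ((z, 0) : (Fin m → ℂ) × (Fin m → ℂ))) (𝓝 x) (𝓝 (x, 0)) := by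
    have : Continuous (fun z : Fin m → ℂ => ((z, 0) : (Fin m → ℂ) × (Fin m → ℂ))) := by fun_prop
    exact this.continuousAt
  refine eq_zero_of_nhds x P ?_
  filter_upwards [hcont himg] with z hz
  obtain ⟨⟨z', v⟩, ⟨hv, hz1⟩, hq⟩ := hz
  have hq1 : z' = z := congrArg Prod.fst hq
  subst hq1
  have hq2 : ∀ i, (w : ℂ) * (((yy (n i) : ℝ) : ℂ) + Sf p σ v (z' i)) - z' i = 0 := by
    intro i
    exact congrFun (congrArg Prod.snd hq) i
  have hom : ∀ q, ‖om p v q‖ ≤ 1 := om_le hp fun j => (hv j).le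
  have hwb : (w : ℂ) ∈ ball (0 : ℂ) r := by
    rw [mem_ball_zero_iff, Complex.norm_real, Real.norm_of_nonneg hw0.le]; exact hwr
  have hzz : z' = fun i => TT σ (yy (n i)) w (om p v) := by
    funext i
    refine ((ht σ (yy (n i)) r hσ (hyy _) hr (hir i)).1 (om p v) hom w hwb).2.2 (z' i) (hz1 i) ?_
    rw [S_eq hp]
    linear_combination -(hq2 i)
  rw [hzz]
  exact hP (om p v) hom w hwb

end Pool.Agent.W598.AI
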